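import Pool.Agent.TRG.St

set_option autoImplicit false

namespace Pool.Agent.TRG

namespace CYC

open SimpleGraph

/-- Without the vertex `a` the edge `ab` is not used. -/
theorem reach {α : Type} [DecidableEq α] (C : SimpleGraph α) (X : Finset α) (a b x y w : α)
    (hw : w = a ∨ w = b) (hcon : (C.induce {v | v ∈ X ∧ v ≠ w}).Connected)
    (hx : x ∈ X ∧ x ≠ w) (hy : y ∈ X ∧ y ≠ w) :
    (C.deleteEdges {s(a, b)}).Reachable x y := by
  have hr := hcon.preconnected ⟨x, hx⟩ ⟨y, hy⟩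
  let f : (C.induce {v | v ∈ X ∧ v ≠ w}) →g (C.deleteEdges {s(a, b)}) :=
    { toFun := fun v => v.1
      map_rel' := by
        intro p q hpq
        have hpq' : C.Adj p.1 q.1 := hpq
        rw [SimpleGraph.deleteEdges_adj]
        refine ⟨hpq', ?_⟩
        intro h1
        have h2 : s(p.1, q.1) = s(a, b) := h1
        have hp := p.2.2
        have hq := q.2.2
        rcases Sym2.eq_iff.1 h2 with ⟨h3, h4⟩ | ⟨h3, h4⟩
        · rcases hw with h5 | h5
          · exact hp (h3.trans h5.symm)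
          · exact hq (h4.trans h5.symm)
        · rcases hw with h5 | h5
          · exact hq (h4.trans h5.symm)
          · exact hp (h3.trans h5.symm) }
  exact hr.map f

end CYC

theorem t_CYC : S_CYC := by
  intro α _ _ C hac X hX hcon
  obtain ⟨x, hx⟩ : X.Nonempty := Finset.card_pos.1 (by omega)
  have hc1 := hcon x hx
  -- two vertices of `X` different from `x`
  obtain ⟨y, z, hy, hz, hyz⟩ : ∃ y z, y ∈ X.erase x ∧ z ∈ X.erase x ∧ y ≠ z := by
    have h1 : 1 < (X.erase x).card := by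
      rw [Finset.card_erase_of_mem hx]
      omega
    obtain ⟨y, hy, z, hz, hyz⟩ := Finset.one_lt_card.1 h1
    exact ⟨y, z, hy, hz, hyz⟩
  have hy' : y ∈ X ∧ y ≠ x := ⟨Finset.mem_of_mem_erase hy, Finset.ne_of_mem_erase hy⟩
  have hz' : z ∈ X ∧ z ≠ x := ⟨Finset.mem_of_mem_erase hz, Finset.ne_of_mem_erase hz⟩
  -- an edge `ab` in `X`
  obtain ⟨b, hb, hyb⟩ : ∃ b ∈ X, C.Adj y b := by
    have hne : (⟨y, hy'⟩ : {v | v ∈ X ∧ v ≠ x}) ≠ ⟨z, hz'⟩ := by
      intro h
      exact hyz (congrArg Subtype.val h)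
    obtain ⟨p⟩ := hc1.preconnected ⟨y, hy'⟩ ⟨z, hz'⟩
    cases p with
    | nil => exact absurd rfl hne
    | @cons _ w _ h q => exact ⟨w.1, w.2.1, h⟩
  have hbr := (SimpleGraph.isAcyclic_iff_forall_adj_isBridge.1 hac) hyb
  rw [SimpleGraph.isBridge_iff] at hbr
  apply hbr
  -- a third vertex
  obtain ⟨c, hc, hcn⟩ : ∃ c ∈ X, c ∉ ({y, b} : Finset α) := by
    by_contra hno
    push Not at hno
    have h1 : X ⊆ ({y, b} : Finset α) := fun c hc => hno c hc
    have h2 := Finset.card_le_card h1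
    have h3 : ({y, b} : Finset α).card ≤ 2 := Finset.card_le_two
    omega
  rw [Finset.mem_insert, Finset.mem_singleton, not_or] at hcn
  have hyb' : y ≠ b := hyb.ne
  have r1 := CYC.reach C X y b y c b (Or.inr rfl) (hcon b hb) ⟨hy'.1, hyb'⟩ ⟨hc, hcn.2⟩
  have r2 := CYC.reach C X y b c b y (Or.inl rfl) (hcon y hy'.1) ⟨hc, hcn.1⟩ ⟨hb, hyb'.symm⟩
  exact r1.trans r2

end Pool.Agent.TRG
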