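import Pool.Agent.TRG.St

/-!
Project TRG, module LEA.
-/

set_option autoImplicit false

namespace Pool.Agent.TRG

open Finset Pool.Agent.Lib_helper61.SwitchBasic Pool.Agent.Lib_helper61.SwCograph Pool.Agent.TRC

theorem t_LEA : S_LEA := by
  intro α _ _ C _ u v w z h hd
  refine ⟨(C.neighborFinset u).erase w, ?_, ?_⟩
  · intro x hx y
    rw [Finset.mem_erase, SimpleGraph.mem_neighborFinset] at hx
    obtain ⟨hxw, hux⟩ := hx
    have hxu : x ≠ u := hux.ne'
    have hxv : x ≠ v := fun e => h.nuv (e ▸ hux)
    have hxz : x ≠ z := fun e => h.nuz (e ▸ hux)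
    have hvx : ¬ C.Adj v x := (h.one x hxu hxv hxw hxz).mp hux
    constructor
    · intro hxy
      rcases h.rest x y hxy with e | e | e | e
      · exact absurd e hxu
      · exact absurd e hxv
      · exact e
      · subst e
        exact absurd hxy.symm hvx
    · intro e
      subst e
      exact hux.symm
  · have hw : w ∈ C.neighborFinset u := by
      rw [SimpleGraph.mem_neighborFinset]
      exact h.uw
    rw [Finset.card_erase_of_mem hw, SimpleGraph.card_neighborFinset_eq_degree]
    omega

end Pool.Agent.TRG
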