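import Pool.Agent.TRG.St
import Pool.Agent.TRC.MTAU

/-!
# TRG, module NCF (helper87): class automorphisms of a graph with `card α - 2` edges
-/

set_option autoImplicit false

namespace Pool.Agent.TRG

open Finset Pool.Agent.Lib_helper61.SwitchBasic Pool.Agent.Lib_helper61.SwCograph Pool.Agent.TRC

namespace NCF

variable {α : Type} [Fintype α] [DecidableEq α]

theorem total (T : SimpleGraph α) [DecidableRel T.Adj] :
    ∑ u, ∑ v, TAU.ad T u v = 2 * (T.edgeFinset.card : ℤ) := by
  have h1 := T.sum_degrees_eq_twice_card_edges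
  have h3 : ∑ u, ∑ v, TAU.ad T u v = ((∑ u, T.degree u : ℕ) : ℤ) := by
    push_cast
    exact Finset.sum_congr rfl fun u _ => (TAU.deg_eq T u).symm
  rw [h3, h1]
  push_cast
  ring

theorem parts (T : SimpleGraph α) [DecidableRel T.Adj] (S : Finset α) :
    2 * (T.edgeFinset.card : ℤ) = 2 * TAU.cr T S + ((∑ u ∈ S, ∑ v ∈ S, TAU.ad T u v) +
      ∑ u ∈ Sᶜ, ∑ v ∈ Sᶜ, TAU.ad T u v) := by
  rw [← total T, TAU.split (TAU.ad T) S]
  have b3 : (∑ u ∈ Sᶜ, ∑ v ∈ S, TAU.ad T u v) = TAU.cr T S := by
    rw [← TAU.cr_compl T S]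
    unfold TAU.cr
    rw [compl_compl]
  have b2 : (∑ u ∈ S, ∑ v ∈ Sᶜ, TAU.ad T u v) = TAU.cr T S := rfl
  rw [b2, b3]
  ring

theorem nonneg2 (T : SimpleGraph α) [DecidableRel T.Adj] (S : Finset α) :
    0 ≤ ∑ u ∈ S, ∑ v ∈ S, TAU.ad T u v :=
  Finset.sum_nonneg fun u _ => Finset.sum_nonneg fun v _ => TAU.ad_nonneg T u v

theorem cr_le (T : SimpleGraph α) [DecidableRel T.Adj] (S : Finset α) :
    TAU.cr T S ≤ T.edgeFinset.card := by
  have h1 := parts T S
  have h2 := nonneg2 T S
  have h3 := nonneg2 T Sᶜ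
  linarith

theorem no_edge (T : SimpleGraph α) [DecidableRel T.Adj] (S : Finset α)
    (h : ∑ u ∈ S, ∑ v ∈ S, TAU.ad T u v = 0) {a b : α} (ha : a ∈ S) (hb : b ∈ S) :
    ¬ T.Adj a b := by
  intro hab
  have h1 := (Finset.sum_eq_zero_iff_of_nonneg
    (fun u _ => Finset.sum_nonneg fun v _ => TAU.ad_nonneg T u v)).1 h a ha
  have h2 := (Finset.sum_eq_zero_iff_of_nonneg (fun v _ => TAU.ad_nonneg T a v)).1 h1 b hb
  unfold TAU.ad at h2
  rw [if_pos hab] at h2
  exact one_ne_zero h2

theorem cross (T : SimpleGraph α) [DecidableRel T.Adj] (S : Finset α)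
    (h : TAU.cr T S = T.edgeFinset.card) {a b : α} (hab : T.Adj a b) : a ∈ S ↔ ¬ b ∈ S := by
  have h1 := parts T S
  have h2 := nonneg2 T S
  have h3 := nonneg2 T Sᶜ
  have e1 : ∑ u ∈ S, ∑ v ∈ S, TAU.ad T u v = 0 := by linarith
  have e2 : ∑ u ∈ Sᶜ, ∑ v ∈ Sᶜ, TAU.ad T u v = 0 := by linarith
  constructor
  · intro ha hb
    exact no_edge T S e1 ha hb hab
  · intro hb
    by_contra ha
    exact no_edge T Sᶜ e2 (Finset.mem_compl.2 ha) (Finset.mem_compl.2 hb) hab

theorem two (T : SimpleGraph α) [DecidableRel T.Adj] {u v : α} (huv : u ≠ v)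
    (h : TAU.cr T {u, v} = T.edgeFinset.card) : Two T u v := by
  refine ⟨huv, fun a b hab => ?_⟩
  have := cross T {u, v} h hab
  simpa only [Finset.mem_insert, Finset.mem_singleton] using this

end NCF

theorem t_NCF : S_NCF := by
  intro α _ _ T _ hE h8 heven σ hσ
  obtain ⟨S, hS⟩ := hσ
  have hk := TAU.key T S σ hS
  have hl := NCF.cr_le T S
  have hsc : S.card ≤ Fintype.card α := Finset.card_le_univ S
  have hE' : (T.edgeFinset.card : ℤ) + 2 = Fintype.card α := by exact_mod_cast hE
  by_cases hcases : S.card = 0 ∨ S.card = Fintype.card α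
  · left
    have hsw : ∀ u v, (sw T S).Adj u v ↔ T.Adj u v := by
      intro u v
      rw [sw_adj]
      have hiff : (u ∈ S ↔ v ∈ S) := by
        rcases hcases with h | h
        · rw [Finset.card_eq_zero] at h
          rw [h]
          simp
        · have : S = univ := (Finset.card_eq_iff_eq_univ S).1 h
          rw [this]
          simp
      constructor
      · intro h
        exact h.2.2 hiff
      · intro h
        exact ⟨h.ne, ⟨fun _ => hiff, fun _ => h⟩⟩
    intro u v
    rw [← hsw, hS]
  · right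
    rw [not_or] at hcases
    obtain ⟨h0, hp⟩ := hcases
    obtain ⟨k, hk2⟩ := heven
    have hkZ : (Fintype.card α : ℤ) = k + k := by exact_mod_cast hk2
    rcases Nat.lt_or_ge S.card 3 with h3 | h3
    · have h12 : S.card = 1 ∨ S.card = 2 := by omega
      rcases h12 with h1 | h2
      · exfalso
        rw [h1] at hk
        push_cast at hk
        omega
      · obtain ⟨u, v, huv, rfl⟩ := Finset.card_eq_two.1 h2
        refine ⟨u, v, NCF.two T huv ?_, hS⟩
        rw [h2] at hk
        push_cast at hk
        linarith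
    · rcases Nat.lt_or_ge (Fintype.card α - 3) S.card with h4 | h4
      · have h12 : S.card + 1 = Fintype.card α ∨ S.card + 2 = Fintype.card α := by omega
        rcases h12 with h1 | h2
        · exfalso
          have e : (S.card : ℤ) + 1 = Fintype.card α := by exact_mod_cast h1
          have e' : (S.card : ℤ) = (Fintype.card α : ℤ) - 1 := by linarith
          rw [e'] at hk
          have hk3 : (Fintype.card α : ℤ) - 1 = 2 * TAU.cr T S := by
            rw [← hk]; ring
          omega
        · have hc2 : Sᶜ.card = 2 := by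
            rw [Finset.card_compl]
            omega
          obtain ⟨u, v, huv, hSc⟩ := Finset.card_eq_two.1 hc2
          have e : (S.card : ℤ) + 2 = Fintype.card α := by exact_mod_cast h2
          have e' : (S.card : ℤ) = (Fintype.card α : ℤ) - 2 := by linarith
          rw [e'] at hk
          have hk3 : 2 * ((Fintype.card α : ℤ) - 2) = 2 * TAU.cr T S := by
            rw [← hk]; ring
          refine ⟨u, v, NCF.two T huv ?_, ?_⟩
          · rw [← hSc, TAU.cr_compl]
            linarith
          · intro a b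
            rw [← hSc, swC_compl]
            exact hS a b
      · exfalso
        have g3 : (3 : ℤ) ≤ S.card := by exact_mod_cast h3
        have g4 : (S.card : ℤ) ≤ (Fintype.card α : ℤ) - 3 := by
          have : S.card + 3 ≤ Fintype.card α := by omega
          have h' : (S.card : ℤ) + 3 ≤ Fintype.card α := by exact_mod_cast this
          linarith
        have g8 : (8 : ℤ) ≤ Fintype.card α := by exact_mod_cast h8
        nlinarith [mul_nonneg (sub_nonneg.2 g3) (sub_nonneg.2 g4)]

end Pool.Agent.TRG
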