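import Pool.Agent.TRG.St

/-! Module P4S of project TRG (MP_e73337_co): two stars have no induced path on four vertices. -/

set_option autoImplicit false

namespace Pool.Agent.TRG

open Finset Pool.Agent.Lib_helper61.SwitchBasic Pool.Agent.Lib_helper61.SwCograph Pool.Agent.TRC

namespace P4S

theorem sw_adj {α : Type} (C : SimpleGraph α) (x y : α) : (sw C ∅).Adj x y ↔ C.Adj x y := by
  show (x ≠ y ∧ (C.Adj x y ↔ (x ∈ (∅ : Finset α) ↔ y ∈ (∅ : Finset α)))) ↔ C.Adj x y
  constructor
  · rintro ⟨_, h⟩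
    exact h.2 (iff_of_false (Finset.notMem_empty x) (Finset.notMem_empty y))
  · intro h
    exact ⟨h.ne, iff_of_true h (iff_of_false (Finset.notMem_empty x) (Finset.notMem_empty y))⟩

/-- a vertex adjacent to both centres cannot exist -/
theorem mid {α : Type} (C : SimpleGraph α) (u v : α)
    (h : ∀ z, z ≠ u → z ≠ v → (C.Adj u z ↔ ¬ C.Adj v z)) (x y m : α)
    (hx : x = u ∨ x = v) (hy : y = u ∨ y = v) (hxy : x ≠ y) (hm : ¬ (m = u ∨ m = v))
    (h1 : C.Adj x m) (h2 : C.Adj y m) : False := by
  have hmu : m ≠ u := fun e => hm (Or.inl e)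
  have hmv : m ≠ v := fun e => hm (Or.inr e)
  have hz := h m hmu hmv
  rcases hx with rfl | rfl <;> rcases hy with rfl | rfl
  · exact hxy rfl
  · exact hz.1 h1 h2
  · exact hz.1 h2 h1
  · exact hxy rfl

end P4S

theorem t_P4S : S_P4S := by
  intro α _ _ C u v hT hz a b c d hab hbc hcd hac hbd had
  rw [P4S.sw_adj] at hab hbc hcd hac hbd had
  have e1 := hT.2 a b hab
  have e2 := hT.2 b c hbc
  have e3 := hT.2 c d hcd
  have hac' : a ≠ c := by
    rintro rfl
    exact had hcd
  have hbd' : b ≠ d := by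
    rintro rfl
    exact had hab
  by_cases ha : a = u ∨ a = v
  · have hb : ¬ (b = u ∨ b = v) := e1.1 ha
    have hc : c = u ∨ c = v := by
      by_contra hc
      exact hb (e2.2 hc)
    exact P4S.mid C u v hz a c b ha hc hac' hb hab hbc.symm
  · have hb : b = u ∨ b = v := by
      by_contra hb
      exact ha (e1.2 hb)
    have hc : ¬ (c = u ∨ c = v) := e2.1 hb
    have hd : d = u ∨ d = v := by
      by_contra hd
      exact hc (e3.2 hd)
    exact P4S.mid C u v hz b d c hb hd hbd' hc hbc hcd.symm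

end Pool.Agent.TRG
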