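import Pool.Agent.TRG.St

/-!
# TRG: an acyclic graph with `card α - 1` edges is a tree
-/

set_option autoImplicit false

namespace Pool.Agent.TRG

theorem t_TRE : S_TRE := by
  intro α _ _ C _ hC h2 he
  classical
  haveI : Nonempty α := Fintype.card_pos_iff.1 (by omega)
  obtain ⟨T, hCT, hT⟩ := (⊤ : SimpleGraph α).exists_maximal_isAcyclic_of_le_isAcyclic le_top hC
  have hT' : Maximal SimpleGraph.IsAcyclic T := by
    refine ⟨hT.prop.2, fun U hU hTU => hT.le_of_ge ⟨le_top, hU⟩ hTU⟩
  have hTt : T.IsTree := SimpleGraph.isTree_iff_maximal_isAcyclic.2 ⟨inferInstance, hT'⟩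
  have hcard := hTt.card_edgeFinset
  have hsub : C.edgeFinset ⊆ T.edgeFinset := SimpleGraph.edgeFinset_mono hCT
  have heq : C.edgeFinset = T.edgeFinset := Finset.eq_of_subset_of_card_le hsub (by omega)
  have : C = T := SimpleGraph.edgeFinset_inj.1 heq
  rw [this]
  exact hTt

end Pool.Agent.TRG
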