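import Pool.Agent.TRG.St

/-!
# TRG, module TYP: two stars, or two stars with a common leaf and an isolated vertex
-/

set_option autoImplicit false

namespace Pool.Agent.TRG

open Finset Pool.Agent.Lib_helper61.SwitchBasic Pool.Agent.TRC

namespace TYP

/-- no cycle of length 4 -/
theorem four {α : Type} {T : SimpleGraph α} (hT : T.IsAcyclic) {u v w₁ w₂ : α} (huv : u ≠ v)
    (h1 : T.Adj u w₁) (h2 : T.Adj v w₁) (h3 : T.Adj u w₂) (h4 : T.Adj v w₂) : w₁ = w₂ := by
  classical
  have p1 : (SimpleGraph.Walk.cons h1 (SimpleGraph.Walk.cons h2.symm SimpleGraph.Walk.nil)).IsPath := by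
    simp [SimpleGraph.Walk.cons_isPath_iff, huv, h1.ne, h2.ne']
  have p2 : (SimpleGraph.Walk.cons h3 (SimpleGraph.Walk.cons h4.symm SimpleGraph.Walk.nil)).IsPath := by
    simp [SimpleGraph.Walk.cons_isPath_iff, huv, h3.ne, h4.ne']
  have h := (hT.subsingleton_path u v).elim ⟨_, p1⟩ ⟨_, p2⟩
  have h' := congrArg (fun p : T.Path u v => p.1.support) h
  simp at h'
  exact h'

theorem edges {α : Type} [Fintype α] [DecidableEq α] (C : SimpleGraph α) [DecidableRel C.Adj]
    (u v : α) (h : Two C u v) : C.edgeFinset.card = C.degree u + C.degree v := by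
  classical
  obtain ⟨huv, h2⟩ := h
  have hn : ¬ C.Adj u v := fun g => ((h2 u v g).1 (Or.inl rfl)) (Or.inr rfl)
  have hE : C.incidenceFinset u ∪ C.incidenceFinset v = C.edgeFinset := by
    ext e
    rw [mem_union, SimpleGraph.mem_incidenceFinset, SimpleGraph.mem_incidenceFinset,
      SimpleGraph.mem_edgeFinset]
    constructor
    · rintro (he | he)
      · exact C.incidenceSet_subset u he
      · exact C.incidenceSet_subset v he
    · intro he
      induction e using Sym2.ind with
      | _ a b =>
        have hab : C.Adj a b := he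
        by_cases ha : a = u ∨ a = v
        · rcases ha with ha | ha
          · exact Or.inl ⟨he, Sym2.mem_iff.2 (Or.inl ha.symm)⟩
          · exact Or.inr ⟨he, Sym2.mem_iff.2 (Or.inl ha.symm)⟩
        · have hb : b = u ∨ b = v := by
            by_contra hb
            exact ha ((h2 a b hab).2 hb)
          rcases hb with hb | hb
          · exact Or.inl ⟨he, Sym2.mem_iff.2 (Or.inr hb.symm)⟩
          · exact Or.inr ⟨he, Sym2.mem_iff.2 (Or.inr hb.symm)⟩
  have hint : Disjoint (C.incidenceFinset u) (C.incidenceFinset v) := by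
    rw [disjoint_left]
    intro e he he'
    rw [SimpleGraph.mem_incidenceFinset] at he he'
    have h4 := (Sym2.mem_and_mem_iff huv).1 ⟨he.2, he'.2⟩
    rw [h4] at he
    exact hn he.1
  rw [← hE, card_union_of_disjoint hint, SimpleGraph.card_incidenceFinset_eq_degree,
    SimpleGraph.card_incidenceFinset_eq_degree]

end TYP

theorem t_TYP : S_TYP := by
  intro α _ _ C _ u v hC hE hT
  have hdeg := TYP.edges C u v hT
  obtain ⟨huv, h2⟩ := hT
  have hn : ¬ C.Adj u v := fun g => ((h2 u v g).1 (Or.inl rfl)) (Or.inr rfl)
  have hsum : C.degree u + C.degree v + 2 = Fintype.card α := by omega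
  refine ⟨hsum, ?_⟩
  have hR : (univ \ {u, v} : Finset α).card + 2 = Fintype.card α := by
    have := card_sdiff_add_card_eq_card (subset_univ ({u, v} : Finset α))
    rw [card_pair huv, card_univ] at this
    exact this
  have hsub : C.neighborFinset u ∪ C.neighborFinset v ⊆ univ \ {u, v} := by
    intro z hz
    rw [mem_union, SimpleGraph.mem_neighborFinset, SimpleGraph.mem_neighborFinset] at hz
    rw [mem_sdiff, mem_insert, mem_singleton]
    refine ⟨mem_univ z, ?_⟩
    rintro (rfl | rfl)
    · rcases hz with hz | hz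
      · exact hz.ne rfl
      · exact hn hz.symm
    · rcases hz with hz | hz
      · exact hn hz
      · exact hz.ne rfl
  have hu := card_union_add_card_inter (C.neighborFinset u) (C.neighborFinset v)
  rw [SimpleGraph.card_neighborFinset_eq_degree, SimpleGraph.card_neighborFinset_eq_degree] at hu
  have hd := card_sdiff_add_card_eq_card hsub
  have hcard : ((univ \ {u, v}) \ (C.neighborFinset u ∪ C.neighborFinset v)).card =
      (C.neighborFinset u ∩ C.neighborFinset v).card := by omega
  have hmem : ∀ z, z ∈ (univ \ {u, v}) \ (C.neighborFinset u ∪ C.neighborFinset v) ↔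
      (z ≠ u ∧ z ≠ v) ∧ ¬ C.Adj u z ∧ ¬ C.Adj v z := by
    intro z
    simp only [mem_sdiff, mem_univ, true_and, mem_insert, mem_singleton, not_or, mem_union,
      SimpleGraph.mem_neighborFinset, ne_eq]
  by_cases hw : ∃ w, C.Adj u w ∧ C.Adj v w
  · right
    obtain ⟨w, huw, hvw⟩ := hw
    have h1 : (C.neighborFinset u ∩ C.neighborFinset v) = {w} := by
      ext x
      rw [mem_inter, SimpleGraph.mem_neighborFinset, SimpleGraph.mem_neighborFinset, mem_singleton]
      constructor
      · rintro ⟨ha, hb⟩
        exact TYP.four hC huv ha hb huw hvw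
      · rintro rfl
        exact ⟨huw, hvw⟩
    rw [h1, card_singleton] at hcard
    obtain ⟨z, hz⟩ := card_eq_one.1 hcard
    have hz1 : (z ≠ u ∧ z ≠ v) ∧ ¬ C.Adj u z ∧ ¬ C.Adj v z := by
      rw [← hmem, hz]
      exact mem_singleton_self z
    refine ⟨w, z, ⟨huv, hn, huw, hvw, ?_, ?_, hz1.2.1, hz1.2.2, hz1.1.1, hz1.1.2, ?_, ?_⟩⟩
    · rintro rfl
      exact hz1.2.1 huw
    · intro g
      have hz0 : ¬ (z = u ∨ z = v) := by
        rintro (e | e)
        · exact hz1.1.1 e
        · exact hz1.1.2 e
      rcases (h2 w z g).2 hz0 with e | e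
      · rw [e] at huw
        exact huw.ne rfl
      · rw [e] at hvw
        exact hvw.ne rfl
    · intro q hqu hqv hqw hqz
      constructor
      · intro ha hb
        exact hqw (TYP.four hC huv ha hb huw hvw)
      · intro hb
        by_contra ha
        have : q ∈ (univ \ {u, v}) \ (C.neighborFinset u ∪ C.neighborFinset v) :=
          (hmem q).2 ⟨⟨hqu, hqv⟩, ha, hb⟩
        rw [hz, mem_singleton] at this
        exact hqz this
    · intro a b hab
      by_cases ha : a = u ∨ a = v
      · rcases ha with ha | ha
        · exact Or.inl ha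
        · exact Or.inr (Or.inl ha)
      · have hb : b = u ∨ b = v := by
          by_contra hb
          exact ha ((h2 a b hab).2 hb)
        exact Or.inr (Or.inr hb)
  · left
    push Not at hw
    have h1 : (C.neighborFinset u ∩ C.neighborFinset v) = ∅ := by
      ext x
      rw [mem_inter, SimpleGraph.mem_neighborFinset, SimpleGraph.mem_neighborFinset]
      exact iff_of_false (fun h => hw x h.1 h.2) (notMem_empty x)
    rw [h1, card_empty, card_eq_zero] at hcard
    intro z hzu hzv
    constructor
    · exact fun ha hb => hw z ha hb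
    · intro hb
      by_contra ha
      have : z ∈ (univ \ {u, v}) \ (C.neighborFinset u ∪ C.neighborFinset v) :=
        (hmem z).2 ⟨⟨hzu, hzv⟩, ha, hb⟩
      rw [hcard] at this
      exact notMem_empty z this

end Pool.Agent.TRG
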