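import Pool.Agent.TRG.St

set_option autoImplicit false

namespace Pool.Agent.TRG

open Finset Pool.Agent.Lib_helper61.SwitchBasic Pool.Agent.Lib_helper61.SwCograph Pool.Agent.TRC

namespace MUNQ

lemma key {α : Type} [Fintype α] [DecidableEq α] (C : SimpleGraph α) [DecidableRel C.Adj]
    (u a b : α) (hu : 3 ≤ C.degree u) (h : Two C a b) : u = a ∨ u = b := by
  by_contra hn
  have hsub : C.neighborFinset u ⊆ {a, b} := by
    intro y hy
    rw [SimpleGraph.mem_neighborFinset] at hy
    have h1 := h.2 u y hy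
    rw [Finset.mem_insert, Finset.mem_singleton]
    by_contra hy2
    exact hn (h1.2 hy2)
  have h2 := Finset.card_le_card hsub
  have h3 := Finset.card_le_two (a := a) (b := b)
  rw [SimpleGraph.card_neighborFinset_eq_degree] at h2
  omega

end MUNQ

theorem t_UNQ : S_UNQ := by
  intro α _ _ C _ u v a b hu hv huv hab
  have h1 := MUNQ.key C u a b hu hab
  have h2 := MUNQ.key C v a b hv hab
  have h3 := huv.1
  rcases h1 with h1 | h1 <;> rcases h2 with h2 | h2
  · exact absurd (h1.trans h2.symm) h3
  · exact Or.inl ⟨h1.symm, h2.symm⟩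
  · exact Or.inr ⟨h2.symm, h1.symm⟩
  · exact absurd (h1.trans h2.symm) h3

end Pool.Agent.TRG
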