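import Pool.Agent.TRG.Core
import Pool.Agent.TRG.MNCF
import Pool.Agent.TRG.MTYP
import Pool.Agent.TRG.MP4S
import Pool.Agent.TRG.MUNQ
import Pool.Agent.TRG.MLEA
import Pool.Agent.TRG.MCYC
import Pool.Agent.TRG.MTRE
import Pool.Agent.TRD.Blocks

/-!
# TRG: switching classes of forests
-/

set_option autoImplicit false

namespace Pool.Agent.TRG

open Finset Pool.Agent.Lib_helper61.SwitchBasic Pool.Agent.TRC

/-- Every graph in the switching class of a forest on more than 64 vertices is reconstructible. -/
theorem forest {α : Type} [Fintype α] [DecidableEq α] (hp : 64 < Fintype.card α)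
    (C : SimpleGraph α) (hC : C.IsAcyclic) : AllRec C :=
  forest_core t_NCF t_TYP t_P4S t_UNQ t_LEA t_TRE (by omega) C hC fun hA =>
    TRD.blocks_gen C hA hp fun X h3 hX => absurd hX (t_CYC α C hC X h3)

end Pool.Agent.TRG
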