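import Pool.Agent.TRG.MEX3
import Pool.Agent.TRC.Tree
import Pool.Agent.TRC.MOPP
import Pool.Agent.TRC.MPRR
import Pool.Agent.TRC.MISO
import Pool.Agent.TRC.MPRM
import Pool.Agent.TRC.MSCL
import Pool.Agent.TRC.MCL2
import Pool.Agent.TRC.MTYP
import Pool.Agent.TRC.MLEA
import Pool.Agent.TRC.MUNI
import Pool.Agent.TRC.MEX1
import Pool.Agent.TRC.MEX2
import Pool.Agent.NTW.Whole

/-!
# TRG: switching classes of forests, the assembly
-/

set_option autoImplicit false

namespace Pool.Agent.TRG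

open Finset Pool.Agent.Lib_helper61.SwitchBasic Pool.Agent.Lib_helper61.SwMain
  Pool.Agent.Lib_helper61.SwCograph Pool.Agent.TRC

/-- Forests. `hW`: graphs without 2-connected subgraphs on at least three vertices whose class
automorphisms are automorphisms. -/
theorem forest_core (hNCF : S_NCF) (hTYP : S_TYP) (hP4S : S_P4S) (hUNQ : S_UNQ) (hLEA : S_LEA)
    (hTRE : S_TRE) {α : Type} [Fintype α] [DecidableEq α] (h12 : 12 ≤ Fintype.card α)
    (C : SimpleGraph α) (hC : C.IsAcyclic)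
    (hW : (∀ σ, IsClassAut C σ → IsAut C σ) → AllRec C) : AllRec C := by
  classical
  intro t t' hdeck
  by_contra hne
  obtain ⟨⟨m, hm⟩, h0⟩ := four_dvd hdeck hne
  have he : Even (Fintype.card α) := ⟨2 * m, by omega⟩
  apply hne
  by_cases h1 : Fintype.card α ≤ C.edgeFinset.card + 1
  · exact tree_all TRC.t_TYP TRC.t_LEA t_SCL t_UNI t_CL2 (t_EX1 t_OPP t_PRR t_ISO t_PRM)
      (t_EX2 t_OPP t_PRR t_ISO t_PRM) (by omega) C (hTRE α C hC (by omega) h1) t t' hdeck
  by_cases h2 : C.edgeFinset.card + 3 ≤ Fintype.card α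
  · exact hW (fun σ hσ u v => NTW.Half.classAut_aut_edges C he h2 σ hσ u v) t t' hdeck
  have h3 : C.edgeFinset.card + 2 = Fintype.card α := by omega
  by_cases hA : ∀ σ, IsClassAut C σ → IsAut C σ
  · exact hW hA t t' hdeck
  push Not at hA
  obtain ⟨σ, hσ, hn⟩ := hA
  rcases hNCF α C h3 (by omega) he σ hσ with h | ⟨u, v, h2v, -⟩
  · exact absurd h hn
  obtain ⟨hdeg, htyp⟩ := hTYP α C u v hC h3 h2v
  rcases htyp with h | ⟨w, z, h⟩
  · exact cograph_all (by omega) ∅ (hP4S α C u v h2v h) t t' hdeck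
  by_cases lu : Fintype.card α + 2 ≤ 2 * C.degree u
  · obtain ⟨L, hL, hL2⟩ := hLEA α C u v w z h lu
    exact t_SCL α C u L hL hL2 (by omega) t t' hdeck
  by_cases lv : Fintype.card α + 2 ≤ 2 * C.degree v
  · obtain ⟨L, hL, hL2⟩ := hLEA α C v u w z (MEX3.sy h) lv
    exact t_SCL α C v L hL hL2 (by omega) t t' hdeck
  have huni : ∀ a b, Two C a b → (a = u ∧ b = v) ∨ (a = v ∧ b = u) := fun a b h' =>
    hUNQ α C u v a b (by omega) (by omega) h2v h'
  have hcl : ∀ σ, IsClassAut C σ → IsAut C σ ∨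
      ∀ a b, (sw C {u, v}).Adj (σ a) (σ b) ↔ C.Adj a b := by
    intro σ hσ
    rcases hNCF α C h3 (by omega) he σ hσ with h' | ⟨a, b, hab, h'⟩
    · exact Or.inl h'
    · right
      rcases huni a b hab with ⟨rfl, rfl⟩ | ⟨rfl, rfl⟩
      · exact h'
      · rw [pair_comm a b] at h'
        exact h'
  have hK : ∀ s, IsAut C s → (s u = u ∧ s v = v) ∨ (s u = v ∧ s v = u) := by
    intro s hs
    refine huni (s u) (s v) ⟨fun g => h2v.1 (s.injective g), fun a b hab => ?_⟩
    have e : ∀ x, s (s⁻¹ x) = x := fun x => s.apply_symm_apply x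
    have h5 := h2v.2 (s⁻¹ a) (s⁻¹ b) ((hs (s⁻¹ a) (s⁻¹ b)).1 (by rw [e, e]; exact hab))
    have h6 : ∀ x y, s⁻¹ x = y ↔ x = s y := by
      intro x y
      constructor
      · intro g
        rw [← g, e]
      · rintro rfl
        simp
    rw [h6, h6, h6, h6] at h5
    exact h5
  exact t_EX3 t_OPP t_PRR t_ISO t_PRM α C u v w z h (by omega) (by omega) (by omega) (by omega)
    hK hcl t t' hdeck

end Pool.Agent.TRG
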