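import Pool.Agent.TRC.Ste
import Pool.Agent.Lib_helper61.SwCograph

/-!
# TRG (MP_e73337_co): switching classes of forests. Statements

Every `S_xxx` is proved in the file `Pool/Agent/TRG/Mxxx.lean` as `theorem t_xxx : S_xxx` (namespace
`Pool.Agent.TRG`), with other statements as hypotheses where the doc string says so.
-/

set_option autoImplicit false

namespace Pool.Agent.TRG

open Finset Pool.Agent.Lib_helper61.SwitchBasic Pool.Agent.Lib_helper61.SwCograph Pool.Agent.TRC

/-- Every edge of `C` has exactly one end in `{u, v}`. -/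
def Two {α : Type} (C : SimpleGraph α) (u v : α) : Prop :=
  u ≠ v ∧ ∀ a b, C.Adj a b → ((a = u ∨ a = v) ↔ ¬ (b = u ∨ b = v))

/-- `C` is two stars with centres `u`, `v` and a common leaf `w`, and an isolated vertex `z`. -/
structure E3 {α : Type} (T : SimpleGraph α) (u v w z : α) : Prop where
  uv : u ≠ v
  nuv : ¬ T.Adj u v
  uw : T.Adj u w
  vw : T.Adj v w
  wz : w ≠ z
  nwz : ¬ T.Adj w z
  nuz : ¬ T.Adj u z
  nvz : ¬ T.Adj v z
  zu : z ≠ u
  zv : z ≠ v
  one : ∀ q, q ≠ u → q ≠ v → q ≠ w → q ≠ z → (T.Adj u q ↔ ¬ T.Adj v q)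
  rest : ∀ a b, T.Adj a b → a = u ∨ a = v ∨ b = u ∨ b = v

/-- EX3 (prove `theorem t_EX3 : S_OPP → S_PRR → S_ISO → S_PRM → S_EX3`; helper25 does it). The proof of
`TRC.t_EX2` with a non-adjacent pair `w, z`. -/
def S_EX3 : Prop :=
  ∀ (α : Type) [Fintype α] [DecidableEq α] (T : SimpleGraph α) [DecidableRel T.Adj] (u v w z : α),
    E3 T u v w z → 8 ≤ Fintype.card α → Fintype.card α % 4 = 0 →
    2 * T.degree u < Fintype.card α + 2 → 2 * T.degree v < Fintype.card α + 2 →
    (∀ s, IsAut T s → (s u = u ∧ s v = v) ∨ (s u = v ∧ s v = u)) →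
    (∀ σ, IsClassAut T σ → IsAut T σ ∨ ∀ a b, (sw T {u, v}).Adj (σ a) (σ b) ↔ T.Adj a b) →
    AllRec T

/-- NCF. PROOF. `σ` maps `C` onto `sw C S`, so both have the same number of edges, and
`|S| (p - |S|) = 2 cut(S)`, `p = card α` (see `TAU.key` in `Pool/Agent/TRC/MTAU.lean`, which holds for all
graphs, and `TAU.cr_pair`), `cut(S) ≤ |E| = p - 2`. `|S| = 1`, `p - 1`: `p - 1 = 2 cut`, but `p` is even.
`3 ≤ |S| ≤ p - 3`: `3 (p - 3) > 2 (p - 2)`. `|S| ∈ {0, p}`: `sw C S = C`, `σ` is an automorphism. `|S| = 2` or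
`p - 2`, `S` or `Sᶜ` is `{u, v}` (`sw C Sᶜ = sw C S`, `TRC.swC_compl`), `cut = p - 2 = |E|`: all edges have
exactly one end in `{u, v}`. -/
def S_NCF : Prop :=
  ∀ (α : Type) [Fintype α] [DecidableEq α] (C : SimpleGraph α) [DecidableRel C.Adj],
    C.edgeFinset.card + 2 = Fintype.card α → 8 ≤ Fintype.card α → Even (Fintype.card α) →
    ∀ σ, IsClassAut C σ → IsAut C σ ∨
      ∃ u v, Two C u v ∧ ∀ a b, (sw C {u, v}).Adj (σ a) (σ b) ↔ C.Adj a b

/-- TYP. PROOF. `|N(u)| + |N(v)| = |E| = card α - 2` (every edge has exactly one end in `{u, v}`), and the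
other vertices, `card α - 2` of them, are not adjacent to each other. So the number of common
neighbours of `u, v` is the number of the vertices `z ∉ {u, v}` adjacent to none of them. There is at most
one common neighbour (no 4-cycle in an acyclic graph: two different paths `u w v`, `u w' v`). If there is
none: first alternative. If there is one, `w`, there is exactly one `z`: `E3`. -/
def S_TYP : Prop :=
  ∀ (α : Type) [Fintype α] [DecidableEq α] (C : SimpleGraph α) [DecidableRel C.Adj] (u v : α),
    C.IsAcyclic → C.edgeFinset.card + 2 = Fintype.card α → Two C u v →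
    C.degree u + C.degree v + 2 = Fintype.card α ∧
    ((∀ z, z ≠ u → z ≠ v → (C.Adj u z ↔ ¬ C.Adj v z)) ∨ ∃ w z, E3 C u v w z)

/-- P4S. PROOF. The components of `C` are two stars: a path `a b c d` on four vertices has the two inner
vertices in `{u, v}` or two consecutive vertices outside; `u, v` are not adjacent and every edge meets
`{u, v}`, so exactly one of `a, b`, exactly one of `b, c`, exactly one of `c, d` is in `{u, v}`: `a, c` or
`b, d` are `u, v` in some order, and the vertex between them is adjacent to both, contradiction. -/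
def S_P4S : Prop :=
  ∀ (α : Type) [Fintype α] [DecidableEq α] (C : SimpleGraph α) (u v : α), Two C u v →
    (∀ z, z ≠ u → z ≠ v → (C.Adj u z ↔ ¬ C.Adj v z)) → P4Free (sw C ∅)

/-- UNQ. PROOF. If `u ∉ {a, b}` then every neighbour of `u` is in `{a, b}` (`Two C a b`), so
`degree u ≤ 2`, contradiction. In the same way `v ∈ {a, b}`. -/
def S_UNQ : Prop :=
  ∀ (α : Type) [Fintype α] [DecidableEq α] (C : SimpleGraph α) [DecidableRel C.Adj] (u v a b : α),
    3 ≤ C.degree u → 3 ≤ C.degree v → Two C u v → Two C a b → (a = u ∧ b = v) ∨ (a = v ∧ b = u)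

/-- LEA. PROOF. `L` = the neighbours of `u` except `w`: their only neighbour is `u` (every edge meets `{u, v}`
and they are not adjacent to `v`). `|L| = degree u - 1`. -/
def S_LEA : Prop :=
  ∀ (α : Type) [Fintype α] [DecidableEq α] (C : SimpleGraph α) [DecidableRel C.Adj] (u v w z : α),
    E3 C u v w z → Fintype.card α + 2 ≤ 2 * C.degree u →
    ∃ L : Finset α, (∀ x ∈ L, ∀ y, C.Adj x y ↔ y = u) ∧ Fintype.card α ≤ 2 * L.card

/-- CYC. PROOF. Let `x ∈ X`. `C.induce {v | v ∈ X ∧ v ≠ x}` is connected with at least two vertices, so it has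
an edge `ab`. It is a bridge of `C` (`SimpleGraph.isAcyclic_iff_forall_adj_isBridge`). Let `c ∈ X` be a
third vertex. There is a walk from `b` to `c` in `X` that avoids `a`, and one from `a` to `c` that avoids `b`;
both avoid the edge `ab`: contradiction. -/
def S_CYC : Prop :=
  ∀ (α : Type) [Fintype α] [DecidableEq α] (C : SimpleGraph α), C.IsAcyclic → ∀ X : Finset α,
    3 ≤ X.card → ¬ ∀ x ∈ X, (C.induce {v | v ∈ X ∧ v ≠ x}).Connected

/-- TRE. PROOF. An acyclic graph with `card α - 1` edges is connected: otherwise add edges between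
different components (the graph stays acyclic) until it is a tree with more than `card α - 1` edges. Or:
Mathlib on spanning trees and the number of edges. -/
def S_TRE : Prop :=
  ∀ (α : Type) [Fintype α] [DecidableEq α] (C : SimpleGraph α) [DecidableRel C.Adj],
    C.IsAcyclic → 2 ≤ Fintype.card α → Fintype.card α ≤ C.edgeFinset.card + 1 → C.IsTree

end Pool.Agent.TRG
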